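import Pool.Agent.W680.WH.Stm

/-! # Project WHH (helper680), task WHH-POS (helper311): positivity is multiplicative -/

set_option autoImplicit false

open scoped ComplexConjugate InnerProductSpace
open ContinuousLinearMap Filter

namespace Pool.Agent.W311.WH

open Pool.Agent.W680.WH

/-- the hyperbolic element -/
noncomputable def rh (r : ℝ) (h0 : 0 ≤ r) (h1 : r < 1) : Mob :=
  ⟨1, r, by simp, by rw [Complex.norm_real, Real.norm_of_nonneg h0]; exact h1⟩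

/-- its inverse -/
noncomputable def rm (r : ℝ) (h0 : 0 ≤ r) (h1 : r < 1) : Mob :=
  ⟨1, -r, by simp, by rw [norm_neg, Complex.norm_real, Real.norm_of_nonneg h0]; exact h1⟩

/-- the product with the rotation by `-1` -/
noncomputable def sg (r : ℝ) (h0 : 0 ≤ r) (h1 : r < 1) : Mob :=
  ⟨-1, r, by simp, by rw [Complex.norm_real, Real.norm_of_nonneg h0]; exact h1⟩

/-- rotation -/
noncomputable def rt (k : Circle) : Mob := ⟨k, 0, Circle.norm_coe k, by simp⟩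

lemma den_ne {r : ℝ} (h0 : 0 ≤ r) (h1 : r < 1) {z : ℂ} (hz : ‖z‖ < 1) :
    (1 : ℂ) + (r : ℂ) * z ≠ 0 := by
  intro h
  have h2 : (r : ℂ) * z = -1 := by linear_combination h
  have h3 : ‖(r : ℂ) * z‖ = 1 := by rw [h2]; simp
  rw [norm_mul, Complex.norm_real, Real.norm_of_nonneg h0] at h3
  nlinarith [norm_nonneg z]

lemma one_sub_ne {r : ℝ} (h0 : 0 ≤ r) (h1 : r < 1) : (1 : ℂ) - (r : ℂ) * (r : ℂ) ≠ 0 := by
  have h2 : (1 : ℝ) - r * r ≠ 0 := by nlinarith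
  intro h
  apply h2
  have : ((1 - r * r : ℝ) : ℂ) = 0 := by push_cast; exact h
  exact_mod_cast this

lemma rh_rm {r : ℝ} (h0 : 0 ≤ r) (h1 : r < 1) (z : ℂ) (hz : ‖z‖ < 1) :
    (rh r h0 h1).act ((rm r h0 h1).act z) = z := by
  have hd := den_ne h0 h1 hz
  have ho := one_sub_ne h0 h1
  unfold Mob.act rh rm
  simp only [Complex.conj_ofReal, map_neg, one_mul, sub_neg_eq_add, neg_mul]
  have e1 : (z + (r : ℂ)) / (1 + (r : ℂ) * z) - (r : ℂ) =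
      z * (1 - (r : ℂ) * r) / (1 + (r : ℂ) * z) := by
    rw [eq_div_iff hd, sub_mul, div_mul_cancel₀ _ hd]
    ring
  have e2 : 1 - (r : ℂ) * ((z + (r : ℂ)) / (1 + (r : ℂ) * z)) =
      (1 - (r : ℂ) * r) / (1 + (r : ℂ) * z) := by
    rw [eq_div_iff hd, sub_mul, mul_assoc, div_mul_cancel₀ _ hd]
    ring
  rw [e1, e2, div_div_div_cancel_right₀ hd, mul_div_assoc, div_self ho, mul_one]

lemma rt_act (k : Circle) (z : ℂ) : (rt k).act z = (k : ℂ) * z := by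
  unfold Mob.act rt
  simp

lemma sg_act {r : ℝ} (h0 : 0 ≤ r) (h1 : r < 1) (m : Circle) (hm : (m : ℂ) = -1) (z : ℂ) :
    (rt m).act ((rh r h0 h1).act z) = (sg r h0 h1).act z := by
  rw [rt_act, hm]
  unfold Mob.act rh sg
  simp

lemma rm_act {r : ℝ} (h0 : 0 ≤ r) (h1 : r < 1) (m : Circle) (hm : (m : ℂ) = -1) (z : ℂ) :
    (sg r h0 h1).act ((rt m).act z) = (rm r h0 h1).act z := by
  rw [rt_act, hm]
  unfold Mob.act rm sg
  simp only [Complex.conj_ofReal, map_neg, one_mul, sub_neg_eq_add, neg_mul]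
  have e1 : -z - (r : ℂ) = -(z + r) := by ring
  have e2 : 1 - (r : ℂ) * -z = 1 + (r : ℂ) * z := by ring
  rw [e1, e2, neg_div, neg_neg]

theorem pos (h1 : S_LEX) (h2 : S_LUN) (h3 : S_LMU) (h4 : S_SGN) (h5 : S_MOBG) (h6 : S_OPR)
    (h7 : S_OPC) : S_POS := by
  obtain ⟨hrot, C, hlex⟩ := h1
  obtain ⟨hmul, hinv⟩ := h3
  obtain ⟨hcomp, -⟩ := h5
  obtain ⟨hReb, -, -, hRR, hR1, hRadj, -⟩ := h6
  obtain ⟨-, -, -, -, -, -, -, -, -, hin, -⟩ := h7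
  obtain ⟨m, hm⟩ : ∃ m : Circle, (m : ℂ) = -1 :=
    ⟨Circle.exp Real.pi, by rw [Circle.coe_exp]; exact Complex.exp_pi_mul_I⟩
  have hmm : m * m = 1 := by
    apply Circle.ext
    rw [Circle.coe_mul, hm]
    simp
  have hmi : m⁻¹ = m := inv_eq_of_mul_eq_one_left hmm
  have hR0 : ∀ k : Circle, R k (eb 0) = eb 0 := by
    intro k
    rw [hReb, zpow_zero]
    simp
  have hinR : ∀ (k : Circle) (f : E), ⟪eb 0, R k f⟫_ℂ = ⟪eb 0, f⟫_ℂ := by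
    intro k f
    rw [← adjoint_inner_left, hRadj, hR0]
  have hinE : ∀ f : E, ⟪eb 0, f⟫_ℂ = co f 0 := by
    intro f
    rw [hin, om_zero]
    simp
  -- properties of the standard lifts
  have std : ∀ (r : ℝ) (h0 : 0 ≤ r) (hr1 : r < 1) (V d : E →L[ℂ] E) (γ : ℤ → ℝ),
      Lift (rh r h0 hr1) V d → 0 < γ 0 → (∀ n : ℤ, co (V (eb 0)) n = (-1 : ℂ) ^ n * (γ n : ℂ)) →
      ⟪eb 0, V (eb 0)⟫_ℂ = (γ 0 : ℂ) ∧ (adjoint V) (eb 0) = R m (V (eb 0)) := by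
    intro r h0 hr1 V d γ hL hγ hco
    have e1 : ⟪eb 0, V (eb 0)⟫_ℂ = (γ 0 : ℂ) := by
      rw [hinE, hco, zpow_zero, one_mul]
    refine ⟨e1, ?_⟩
    have hL1 := hinv (rh r h0 hr1) (rm r h0 hr1) V d (rh_rm h0 hr1) hL
    have hm1 : Lift (rt m) (R m) 0 := by
      have := hrot m (rt m) rfl rfl
      rwa [hmi] at this
    have hL2 := hmul (rt m) (rh r h0 hr1) (sg r h0 hr1) (R m) 0 V d
      (fun z _ => sg_act h0 hr1 m hm z) hm1 hL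
    have hL3 := hmul (sg r h0 hr1) (rt m) (rm r h0 hr1) (R m * V) _ (R m) 0
      (fun z _ => rm_act h0 hr1 m hm z) hL2 hm1
    have hP1 : Pos (adjoint V) := by
      unfold Pos
      rw [adjoint_inner_right, ← inner_conj_symm, e1, Complex.conj_ofReal, Complex.ofReal_re]
      exact hγ
    have hP2 : Pos (R m * V * R m) := by
      unfold Pos
      change 0 < (⟪eb 0, R m (V (R m (eb 0)))⟫_ℂ).re
      rw [hinR, hR0, e1, Complex.ofReal_re]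
      exact hγ
    have h8 := (h2 _ _ _ _ _ hL1 hL3).2.2 hP1 hP2
    rw [h8]
    change R m (V (R m (eb 0))) = R m (V (eb 0))
    rw [hR0]
  intro φ ψ V d V' d' hV hV' hPV hPV'
  obtain ⟨k, l, r, Vr, d1, γ, hr0, hr1, hL1, -, hP1, hVr, hγ, hγ0, hco⟩ := hlex φ
  obtain ⟨k', l', s, Vs, d2, γ', hs0, hs1, hL2, -, hP2, hVs, hγ', hγ0', hco'⟩ := hlex ψ
  obtain ⟨dr, hLr⟩ := hVr (rh r hr0 hr1) rfl rfl
  obtain ⟨ds, hLs⟩ := hVs (rh s hs0 hs1) rfl rfl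
  have hVe := (h2 _ _ _ _ _ hV hL1).2.2 hPV hP1
  have hVe' := (h2 _ _ _ _ _ hV' hL2).2.2 hPV' hP2
  obtain ⟨hr2, hr3⟩ := std r hr0 hr1 Vr dr γ hLr hγ0 hco
  -- the identity
  have hid : ∀ x : Circle, ⟪eb 0, Vr (R x (Vs (eb 0)))⟫_ℂ =
      ⟪Vr (eb 0), R (m⁻¹ * x) (Vs (eb 0))⟫_ℂ := by
    intro x
    rw [← adjoint_inner_left, hr3, ← hRR]
    change _ = ⟪Vr (eb 0), R m⁻¹ (R x (Vs (eb 0)))⟫_ℂ
    rw [← hRadj, adjoint_inner_right]
  have hsgn := h4 (Vr (eb 0)) (Vs (eb 0)) γ γ' hγ hγ0 hγ' hγ0' hco hco' (by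
    intro κ
    have e1 : ⟪Vr (eb 0), R κ (Vs (eb 0))⟫_ℂ = ⟪eb 0, Vr (R (m * κ) (Vs (eb 0)))⟫_ℂ := by
      rw [hid, inv_mul_cancel_left]
    rw [e1]
    set y : Circle := m * κ with hy
    have hLy : Lift (rt y⁻¹) (R y) 0 := by
      have := hrot y⁻¹ (rt y⁻¹) rfl rfl
      rwa [inv_inv] at this
    obtain ⟨χ1, hχ1⟩ := hcomp (rh r hr0 hr1) (rt y⁻¹)
    obtain ⟨χ, hχ⟩ := hcomp χ1 (rh s hs0 hs1)
    have hA := hmul _ _ χ1 _ _ _ _ hχ1 hLr hLy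
    have hB := hmul _ _ χ _ _ _ _ hχ hA hLs
    obtain ⟨k2, l2, t, Vt, d3, γ2, ht0, ht1, hL3, -, hP3, hVt, hγ2, hγ20, hco2⟩ := hlex χ
    have hval : ⟪eb 0, (R k2 * Vt * R l2) (eb 0)⟫_ℂ = (γ2 0 : ℂ) := by
      change ⟪eb 0, R k2 (Vt (R l2 (eb 0)))⟫_ℂ = (γ2 0 : ℂ)
      rw [hinR, hR0, hinE, hco2, zpow_zero, one_mul]
    have hne : ((γ2 0 : ℝ) : ℂ) ≠ 0 := by exact_mod_cast hγ20.ne'
    rcases (h2 _ _ _ _ _ hB hL3).2.1 with h8 | h8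
    · have e2 : ⟪eb 0, Vr (R y (Vs (eb 0)))⟫_ℂ = (γ2 0 : ℂ) := by
        rw [← hval, ← h8]
        rfl
      rw [e2]
      exact ⟨Complex.ofReal_im _, hne⟩
    · have e2 : ⟪eb 0, Vr (R y (Vs (eb 0)))⟫_ℂ = -(γ2 0 : ℂ) := by
        have e3 : ⟪eb 0, (Vr * R y * Vs) (eb 0)⟫_ℂ = -(γ2 0 : ℂ) := by
          rw [h8]
          change ⟪eb 0, -((R k2 * Vt * R l2) (eb 0))⟫_ℂ = -(γ2 0 : ℂ)
          rw [inner_neg_right, hval]
        exact e3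
      rw [e2]
      refine ⟨by simp, neg_ne_zero.2 hne⟩)
  have h9 := hsgn (m⁻¹ * (l * k'))
  rw [← hid] at h9
  unfold Pos
  rw [hVe, hVe']
  change 0 < (⟪eb 0, R k (Vr (R l (R k' (Vs (R l' (eb 0))))))⟫_ℂ).re
  rw [hinR, hR0]
  have e4 : R l (R k' (Vs (eb 0))) = R (l * k') (Vs (eb 0)) := by
    rw [← hRR]
    rfl
  rw [e4]
  exact h9

end Pool.Agent.W311.WH
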